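import Pool.Agent.Lib.H45DA.Main

/-!
# The volume of singular K-semistable Fano varieties with a torus action of complexity one

Let `X` be a Fano variety (klt) of dimension `n = d + 1 ≥ 2` with an effective action of a torus of dimension `d`, given by its
combinatorial datum (`Pool/Agent/Lib/H45DA/Defs.lean`). If `X` is K-semistable and singular, then
`vol(X) ≤ 2 ((n² - 1)/n)ⁿ < 2 nⁿ`. The proof is in `Pool/Agent/Lib/H45DA` (`PROOF.md`).
-/

namespace Pool.Agent.Results.MP_d76efa_ag.ComplexityOne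

open Pool.Agent.Lib.H45DA

/-- **Main theorem.** -/
theorem result (d m : ℕ) (hd : 1 ≤ d) (hm : 3 ≤ m) (X : Datum d m) (hX : X.IsFano)
    (hK : X.IsKSemistable) (hs : ¬ X.IsSmooth) :
    X.volume ≤ 2 * ((((d : ℝ) + 1) ^ 2 - 1) / (d + 1)) ^ (d + 1) ∧
      X.volume < 2 * ((d : ℝ) + 1) ^ (d + 1) := by
  have h := Datum.volume_le hd hm hX hK hs
  refine ⟨h, h.trans_lt ?_⟩
  have hd0 : (0 : ℝ) ≤ d := Nat.cast_nonneg d
  have hn : (0 : ℝ) < (d : ℝ) + 1 := by positivity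
  have h1 : (((d : ℝ) + 1) ^ 2 - 1) / (d + 1) < (d : ℝ) + 1 := by
    rw [div_lt_iff₀ hn]
    nlinarith
  have h2 : (0 : ℝ) ≤ (((d : ℝ) + 1) ^ 2 - 1) / (d + 1) := by
    apply div_nonneg _ hn.le
    nlinarith
  have h3 : ((((d : ℝ) + 1) ^ 2 - 1) / (d + 1)) ^ (d + 1) < ((d : ℝ) + 1) ^ (d + 1) :=
    pow_lt_pow_left₀ h1 h2 (by omega)
  exact mul_lt_mul_of_pos_left h3 two_pos

end Pool.Agent.Results.MP_d76efa_ag.ComplexityOne
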